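import Pool.Agent.H264Z.PcMain

set_option autoImplicit false

namespace Pool.Agent.Results.MP_7898df_pr.NoMonotoneCoupling

open MeasureTheory ProbabilityTheory Pool.Agent.H264Z.Pc

/-- In high dimension, for `0.9 / d ≤ p₁ < p₂ ≤ 1 / d`, both parameters are supercritical and the percolation
clusters of the origin conditioned to be infinite have no monotone coupling. -/
theorem result (d : ℕ) (hd : 10 ^ 18 ≤ d) (p₁ p₂ : unitInterval) (h₀ : 9 / (10 * d) ≤ (p₁ : ℝ))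
    (h₁ : p₁ < p₂) (h₂ : (p₂ : ℝ) ≤ 1 / d) :
    (pc d < p₁ ∧ 0 < perc d p₁ (infinite d) ∧ 0 < perc d p₂ (infinite d)) ∧ ∀ (Ω : Type*) [MeasurableSpace Ω] (P : Measure Ω) [IsProbabilityMeasure P]
      (C₁ C₂ : Ω → Set (Vtx d) × Set (Edge d)), HasLaw C₁ (infLaw d p₁) P → HasLaw C₂ (infLaw d p₂) P →
      P {ω | (C₁ ω).1 ⊆ (C₂ ω).1 ∧ (C₁ ω).2 ⊆ (C₂ ω).2} < 1 := by
  obtain ⟨h, D, hD, hm, hlt⟩ := no_coupling d hd p₁ p₂ h₀ h₁ h₂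
  exact ⟨h, fun Ω _ P _ C₁ C₂ l₁ l₂ =>
    coupling_lt P _ _ D hD hlt C₁ C₂ l₁ l₂ _ fun ω hω => hm _ _ hω.2⟩

end Pool.Agent.Results.MP_7898df_pr.NoMonotoneCoupling
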